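import Pool.Agent.helper40.SU.SpecT

/-! # Row TPD of project su: a criterion for positive definiteness -/

set_option autoImplicit false

open Finset Matrix

namespace Pool.Agent.SU

theorem TPD_core (a b c d e f x y z : ℤ) (ha : 0 < a) (hg : 0 < a * d - b ^ 2)
    (hdet : a * d * f - a * e * e - b * b * f + b * e * c + c * b * e - c * d * c = 1)
    (h : ¬(x = 0 ∧ y = 0 ∧ z = 0)) :
    0 < a * x ^ 2 + 2 * b * x * y + 2 * c * x * z + d * y ^ 2 + 2 * e * y * z + f * z ^ 2 := by
  obtain ⟨g, hgdef⟩ : ∃ g, g = a * d - b ^ 2 := ⟨_, rfl⟩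
  obtain ⟨t, htdef⟩ : ∃ t, t = a * e - b * c := ⟨_, rfl⟩
  obtain ⟨Q, hQ⟩ : ∃ Q, Q = a * x ^ 2 + 2 * b * x * y + 2 * c * x * z + d * y ^ 2 +
    2 * e * y * z + f * z ^ 2 := ⟨_, rfl⟩
  rw [← hgdef] at hg
  rw [← hQ]
  have key : g * a * Q = g * (a * x + b * y + c * z) ^ 2 + (g * y + t * z) ^ 2 + a * z ^ 2 := by
    have e1 : a * z ^ 2 = a * z ^ 2 *
        (a * d * f - a * e * e - b * b * f + b * e * c + c * b * e - c * d * c) := by
      rw [hdet, mul_one]
    rw [e1, hQ, hgdef, htdef]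
    ring
  have hpos : 0 < g * a * Q := by
    rw [key]
    have s1 : 0 ≤ g * (a * x + b * y + c * z) ^ 2 := mul_nonneg hg.le (sq_nonneg _)
    have s2 : 0 ≤ (g * y + t * z) ^ 2 := sq_nonneg _
    have s3 : 0 ≤ a * z ^ 2 := mul_nonneg ha.le (sq_nonneg _)
    by_cases hz : z = 0
    · by_cases hy : y = 0
      · have hx : x ≠ 0 := fun hx => h ⟨hx, hy, hz⟩
        have : 0 < g * (a * x + b * y + c * z) ^ 2 := by
          refine mul_pos hg ?_
          have : a * x + b * y + c * z ≠ 0 := by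
            rw [hy, hz, mul_zero, mul_zero, add_zero, add_zero]
            exact mul_ne_zero ha.ne' hx
          exact lt_of_le_of_ne (sq_nonneg _) (Ne.symm (pow_ne_zero 2 this))
        linarith
      · have : 0 < (g * y + t * z) ^ 2 := by
          have : g * y + t * z ≠ 0 := by
            rw [hz, mul_zero, add_zero]
            exact mul_ne_zero hg.ne' hy
          exact lt_of_le_of_ne (sq_nonneg _) (Ne.symm (pow_ne_zero 2 this))
        linarith
    · have : 0 < a * z ^ 2 := by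
        refine mul_pos ha ?_
        exact lt_of_le_of_ne (sq_nonneg _) (Ne.symm (pow_ne_zero 2 hz))
      linarith
  have hga : 0 < g * a := mul_pos hg ha
  exact (mul_pos_iff_of_pos_left hga).1 hpos

theorem TPD : TPD_stmt := by
  intro A hA hdet h0 h1
  refine ⟨hA, hdet, ?_⟩
  intro x hx
  have e10 : A 1 0 = A 0 1 := by
    have := congrFun (congrFun hA 0) 1
    rw [Matrix.transpose_apply] at this
    exact this
  have e20 : A 2 0 = A 0 2 := by
    have := congrFun (congrFun hA 0) 2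
    rw [Matrix.transpose_apply] at this
    exact this
  have e21 : A 2 1 = A 1 2 := by
    have := congrFun (congrFun hA 1) 2
    rw [Matrix.transpose_apply] at this
    exact this
  have hd := hdet
  rw [Matrix.det_fin_three, e10, e20, e21] at hd
  have hne : ¬(x 0 = 0 ∧ x 1 = 0 ∧ x 2 = 0) := by
    rintro ⟨a0, a1, a2⟩
    apply hx
    funext i
    fin_cases i
    · exact a0
    · exact a1
    · exact a2
  have key := TPD_core (A 0 0) (A 0 1) (A 0 2) (A 1 1) (A 1 2) (A 2 2) (x 0) (x 1) (x 2) h0 h1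
    (by linarith) hne
  have hQ : x ⬝ᵥ (A *ᵥ x) = A 0 0 * x 0 ^ 2 + 2 * A 0 1 * x 0 * x 1 + 2 * A 0 2 * x 0 * x 2 +
      A 1 1 * x 1 ^ 2 + 2 * A 1 2 * x 1 * x 2 + A 2 2 * x 2 ^ 2 := by
    simp only [dotProduct, Matrix.mulVec, Fin.sum_univ_three]
    rw [e10, e20, e21]
    ring
  rw [hQ]
  exact key

end Pool.Agent.SU
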